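import Pool.Agent.H59.HR.Stm

set_option linter.all false

open Polynomial

namespace HR

namespace A6_aux

/-- ideals `I ≤ J` with quotients of the same finite dimension are equal -/
theorem eq_of_le_of_finrank {I J : Ideal (P2 ℂ)} (h : I ≤ J) (hI : Module.Finite ℂ (P2 ℂ ⧸ I))
    (hJ : Module.Finite ℂ (P2 ℂ ⧸ J))
    (e : Module.finrank ℂ (P2 ℂ ⧸ I) = Module.finrank ℂ (P2 ℂ ⧸ J)) : I = J := by
  refine le_antisymm h fun x hx => ?_
  let φ : (P2 ℂ ⧸ I) →ₐ[ℂ] (P2 ℂ ⧸ J) := Ideal.Quotient.factorₐ ℂ h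
  have hφ : Function.Surjective φ := Ideal.Quotient.factor_surjective h
  have hi : Function.Injective φ.toLinearMap := by
    refine (LinearMap.injective_iff_surjective_of_finrank_eq_finrank e).mpr ?_
    exact hφ
  have h1 : φ (Ideal.Quotient.mk I x) = 0 := by
    show Ideal.Quotient.mk J x = 0
    exact Ideal.Quotient.eq_zero_iff_mem.mpr hx
  have h2 : Ideal.Quotient.mk I x = 0 := by
    apply hi
    rw [map_zero]
    exact h1
  exact Ideal.Quotient.eq_zero_iff_mem.mp h2

theorem map_emb (t : ℂ) (f : P2 ℂ) :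
    MvPolynomial.map (Polynomial.evalRingHom t) (emb f) = f := by
  rw [emb, MvPolynomial.map_map]
  have : (Polynomial.evalRingHom t).comp (Polynomial.C : ℂ →+* ℂ[X]) = RingHom.id ℂ := by
    ext x; simp
  rw [this, MvPolynomial.map_id]

theorem lim_mem {n : ℕ} {a : LP[X]} {f : P2 ℂ} (h : Lim n a f) :
    f ∈ fibre (fam n a) 0 := by
  obtain ⟨F, hF, H, e⟩ := h
  have h1 := Ideal.mem_map_of_mem (MvPolynomial.map (σ := Fin 2) (Polynomial.evalRingHom (0 : ℂ))) hF
  rw [e, map_add, map_mul, map_emb, MvPolynomial.map_C] at h1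
  simpa [fibre] using h1

theorem end_eq (hMI : S_MI) (h1 : S_A1) (h4 : S_A4) {n : ℕ} (hn : 1 ≤ n) {a : LP[X]}
    (ha : a.coeff 0 = 0) {S : Finset (ℕ × ℕ)} (hS : IsLowerSet (S : Set (ℕ × ℕ)))
    (hc : S.card = n) (hg : ∀ p : ℕ × ℕ, p ∉ S → Lim n a (mon ℂ p)) :
    fibre (fam n a) 0 = mIdeal S := by
  obtain ⟨hf1, hf2, hf3⟩ := h1 n hn a ha
  obtain ⟨g1, g2⟩ := h4 n (fam n a) hf1 hf2 hf3 0
  obtain ⟨-, g3, g4⟩ := hMI S hS
  symm
  refine eq_of_le_of_finrank ?_ g3 g1 (by rw [g4, g2, hc])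
  rw [mIdeal, Ideal.span_le]
  rintro _ ⟨p, hp, rfl⟩
  exact lim_mem (hg p hp)

theorem first {n : ℕ} {a : LP[X]} {f g : P2 ℂ} (h : LimTan n a f g) :
    FirstOrder (fam n a) 0 f g := by
  obtain ⟨F, hF, H, e⟩ := h
  refine ⟨F, hF, H, ?_⟩
  rw [e, Polynomial.C_0, sub_zero]

theorem mon_mem (hMI : S_MI) {S : Finset (ℕ × ℕ)} (hS : IsLowerSet (S : Set (ℕ × ℕ)))
    (p : ℕ × ℕ) : mon ℂ p ∈ mIdeal S ↔ p ∉ S := by
  classical
  rw [(hMI S hS).1]
  constructor
  · intro h hp
    have := h p hp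
    rw [mon_eq, MvPolynomial.coeff_monomial, if_pos rfl] at this
    exact one_ne_zero this
  · intro hp q hq
    rw [mon_eq, MvPolynomial.coeff_monomial, if_neg]
    intro e
    exact hp (ex_inj e ▸ hq)

theorem curv_inj {n : ℕ} {b c : ℂ[X]} (h : curv n b = curv n c) :
    ∀ k < n, b.coeff k = c.coeff k := by
  let F : P2 ℂ := MvPolynomial.X 1 - Polynomial.aeval (MvPolynomial.X 0 : P2 ℂ) b
  have hev : ∀ d : ℂ[X], ev d F = d - b := by
    intro d
    rw [show F = MvPolynomial.X 1 - Polynomial.aeval (MvPolynomial.X 0 : P2 ℂ) b from rfl,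
      map_sub, ev_X1, ← Polynomial.aeval_algHom_apply, ev_X0, Polynomial.aeval_X_left_apply]
  have h1 : F ∈ curv n b := by
    rw [mem_curv, hev, sub_self]; exact dvd_zero _
  rw [h, mem_curv, hev, Polynomial.X_pow_dvd_iff] at h1
  intro k hk
  have := h1 k hk
  rw [Polynomial.coeff_sub, sub_eq_zero] at this
  exact this.symm

end A6_aux

open A6_aux in
theorem A6 (hMI : S_MI) (h1 : S_A1) (h2 : S_A2) (h3 : S_A3) (h4 : S_A4) (h5 : S_A5) : S_A6 := by
  intro n hn a ha S0 S1 hS0 hS1 hc0 hc1 hne hg0 hg1 hd0 hd1 hinj htan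
  set a' : LP[X] := a.map ((LaurentPolynomial.invert : LP ≃ₐ[ℂ] LP) : LP →+* LP) with ha'
  have ha'0 : a'.coeff 0 = 0 := by rw [ha', Polynomial.coeff_map, ha, map_zero]
  obtain ⟨f1, f2, f3⟩ := h1 n hn a ha
  obtain ⟨g1, g2, g3⟩ := h1 n hn a' ha'0
  have e0 : fibre (fam n a) 0 = mIdeal S0 := end_eq hMI h1 h4 hn ha hS0 hc0 hg0.1
  have e1 : fibre (fam n a') 0 = mIdeal S1 := end_eq hMI h1 h4 hn ha'0 hS1 hc1 hg1.1
  let c : RatCurve n :=
    { I0 := fam n a, I1 := fam n a', free0 := f1, finite0 := f2, rank0 := f3,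
      free1 := g1, finite1 := g2, rank1 := g3, glue := h2 n a }
  have p0 : c.point (some 0) = mIdeal S0 := e0
  have p1 : c.point none = mIdeal S1 := e1
  have pt : ∀ t : ℂˣ, c.point (some (t : ℂ)) = curv n (a.map (lev t)) := fun t => h3 n a t
  have hne' : mIdeal S0 ≠ mIdeal S1 := by
    intro h
    apply hne
    ext p
    have q0 := mon_mem hMI hS0 p
    have q1 := mon_mem hMI hS1 p
    rw [h, q1] at q0
    exact (not_iff_not.mp q0).symm
  refine ⟨c, ⟨?_, ?_, ?_⟩, ⟨some 0, p0⟩, ⟨none, p1⟩⟩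
  · -- injectivity
    rintro (_ | s) (_ | t) hst
    · rfl
    · exfalso
      rw [show (none : Option ℂ) = none from rfl, p1] at hst
      by_cases ht : t = 0
      · rw [ht, p0] at hst; exact hne' hst.symm
      · have := pt (Units.mk0 t ht)
        rw [Units.val_mk0] at this
        rw [this] at hst
        exact hd1 _ hst.symm
    · exfalso
      rw [show (none : Option ℂ) = none from rfl, p1] at hst
      by_cases hs : s = 0
      · rw [hs, p0] at hst; exact hne' hst
      · have := pt (Units.mk0 s hs)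
        rw [Units.val_mk0] at this
        rw [this] at hst
        exact hd1 _ hst
    · by_cases hs : s = 0
      · by_cases ht : t = 0
        · rw [hs, ht]
        · exfalso
          have := pt (Units.mk0 t ht)
          rw [Units.val_mk0] at this
          rw [hs, p0, this] at hst
          exact hd0 _ hst.symm
      · by_cases ht : t = 0
        · exfalso
          have := pt (Units.mk0 s hs)
          rw [Units.val_mk0] at this
          rw [ht, p0, this] at hst
          exact hd0 _ hst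
        · have q1 := pt (Units.mk0 s hs)
          have q2 := pt (Units.mk0 t ht)
          rw [Units.val_mk0] at q1 q2
          rw [q1, q2] at hst
          have := curv_inj hst
          have h6 : Units.mk0 s hs = Units.mk0 t ht := by
            apply hinj
            intro k hk
            have := this k hk
            rwa [Polynomial.coeff_map, Polynomial.coeff_map] at this
          have := congrArg Units.val h6
          rw [Units.val_mk0, Units.val_mk0] at this
          rw [this]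
  · intro t
    by_cases ht : t = 0
    · obtain ⟨f, g, hl, hg⟩ := hg0.2
      subst ht
      refine ⟨f, g, first hl, ?_⟩
      show g ∉ fibre (fam n a) 0
      rw [e0]; exact hg
    · obtain ⟨f, g, hl, hg⟩ := h5 n a (Units.mk0 t ht) (htan _)
      rw [Units.val_mk0] at hl hg
      exact ⟨f, g, hl, hg⟩
  · obtain ⟨f, g, hl, hg⟩ := hg1.2
    refine ⟨f, g, first hl, ?_⟩
    show g ∉ fibre (fam n a') 0
    rw [e1]; exact hg

end HR
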