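import Pool.Agent.H59.HR.Stm

set_option linter.all false

open Polynomial

namespace HR

namespace FD_aux

variable {L : Type} [Field L] [Algebra ℂ L]

/-- rational vectors -/
def Rt {V : Type} [AddCommGroup V] [Module L V] {ι : Type} (k : IntermediateField ℂ L)
    (b : Module.Basis ι L V) (x : V) : Prop := ∀ j, b.repr x j ∈ k

theorem Rt.mono {V : Type} [AddCommGroup V] [Module L V] {ι : Type}
    {k k' : IntermediateField ℂ L} (h : k ≤ k') {b : Module.Basis ι L V} {x : V}
    (hx : Rt k b x) : Rt k' b x := fun j => h (hx j)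

theorem Rt.basis {V : Type} [AddCommGroup V] [Module L V] {ι : Type}
    (k : IntermediateField ℂ L) (b : Module.Basis ι L V) (i : ι) : Rt k b (b i) := by
  classical
  intro j
  rw [Module.Basis.repr_self, Finsupp.single_apply]
  split_ifs
  · exact k.one_mem
  · exact k.zero_mem

theorem Rt.map {V W : Type} [AddCommGroup V] [Module L V] [AddCommGroup W] [Module L W]
    {ι κ : Type} [Fintype ι] {k : IntermediateField ℂ L} {b : Module.Basis ι L V}
    {b' : Module.Basis κ L W} (X : V →ₗ[L] W) (hX : ∀ i, Rt k b' (X (b i))) {x : V}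
    (hx : Rt k b x) : Rt k b' (X x) := by
  intro j
  rw [← b.sum_repr x, map_sum, map_sum, Finsupp.finset_sum_apply]
  refine sum_mem fun i _ => ?_
  rw [map_smul, map_smul, Finsupp.smul_apply, smul_eq_mul]
  exact mul_mem (hx i) (hX i j)

theorem Rt.pow {V : Type} [AddCommGroup V] [Module L V]
    {ι : Type} [Fintype ι] {k : IntermediateField ℂ L} {b : Module.Basis ι L V}
    (X : V →ₗ[L] V) (hX : ∀ i, Rt k b (X (b i))) {x : V}
    (hx : Rt k b x) (n : ℕ) : Rt k b ((X ^ n) x) := by
  induction n with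
  | zero => simpa using hx
  | succ n ih =>
    rw [pow_succ', Module.End.mul_apply]
    exact Rt.map X hX ih

theorem semiconj_pow {V W : Type} [AddCommGroup V] [Module L V] [AddCommGroup W] [Module L W]
    (R : V →ₗ[L] W) (X : V →ₗ[L] V) (X' : W →ₗ[L] W) (h : ∀ u, R (X u) = X' (R u)) (n : ℕ)
    (u : V) : R ((X ^ n) u) = (X' ^ n) (R u) := by
  induction n with
  | zero => simp
  | succ n ih => rw [pow_succ', pow_succ', Module.End.mul_apply, Module.End.mul_apply, h, ih]

theorem comm_pow {V : Type} [AddCommGroup V] [Module L V]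
    (X Y : V →ₗ[L] V) (h : X * Y = Y * X) (n : ℕ) (u : V) :
    X ((Y ^ n) u) = (Y ^ n) (X u) :=
  semiconj_pow X Y Y (fun u => LinearMap.congr_fun h u) n u

theorem main (hLA : S_LA) : ∀ (n : ℕ) (V : Type) [AddCommGroup V] [Module L V]
    [FiniteDimensional L V] (X Y : V →ₗ[L] V) (v : V), Module.finrank L V = n →
    X * Y = Y * X → IsNilpotent X → IsNilpotent Y →
    Submodule.span L {w | ∃ p q : ℕ, w = (X ^ p) ((Y ^ q) v)} = ⊤ →
    ∃ (T : Finset L) (b : Module.Basis (Fin (Module.finrank L V)) L V),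
      T.card + Module.finrank L (V ⧸ LinearMap.range X) ≤ Module.finrank L V ∧
      (∀ i, Rt (IntermediateField.adjoin ℂ (T : Set L)) b (X (b i))) ∧
      (∀ i, Rt (IntermediateField.adjoin ℂ (T : Set L)) b (Y (b i))) ∧
      Rt (IntermediateField.adjoin ℂ (T : Set L)) b v := by
  classical
  intro n
  induction n using Nat.strong_induction_on with
  | _ n ih =>
  intro V _ _ _ X Y v hn hXY hXn hYn hspan
  rcases Nat.eq_zero_or_pos (Module.finrank L V) with h0 | hpos
  · refine ⟨∅, Module.finBasis L V, ?_, ?_, ?_, ?_⟩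
    · rw [Finset.card_empty, zero_add]
      exact Submodule.finrank_quotient_le _
    · intro i; exact absurd i.2 (by omega)
    · intro i; exact absurd i.2 (by omega)
    · intro i; exact absurd i.2 (by omega)
  set V' : Submodule L V := LinearMap.range X with hV'
  have hlt : Module.finrank L V' < Module.finrank L V := by
    refine Submodule.finrank_lt fun htop => ?_
    obtain ⟨N, hN⟩ := hXn
    have hs : Function.Surjective X := LinearMap.range_eq_top.mp htop
    have hs' : Function.Surjective (X ^ N) := by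
      rw [Module.End.coe_pow]
      exact hs.iterate N
    have : Subsingleton V := by
      refine ⟨fun a b => ?_⟩
      obtain ⟨a', rfl⟩ := hs' a
      obtain ⟨b', rfl⟩ := hs' b
      rw [hN]; rfl
    rw [Module.finrank_zero_of_subsingleton] at hpos
    exact lt_irrefl _ hpos
  have hXV : ∀ x ∈ V', X x ∈ V' := fun x _ => ⟨x, rfl⟩
  have hYV : ∀ x ∈ V', Y x ∈ V' := by
    rintro _ ⟨u, rfl⟩
    exact ⟨Y u, LinearMap.congr_fun hXY u⟩
  let X' : V' →ₗ[L] V' := X.restrict hXV
  let Y' : V' →ₗ[L] V' := Y.restrict hYV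
  have hX'c : ∀ x : V', ((X' x : V') : V) = X x := fun x => rfl
  have hY'c : ∀ x : V', ((Y' x : V') : V) = Y x := fun x => rfl
  have hX'p : ∀ (m : ℕ) (x : V'), (((X' ^ m) x : V') : V) = (X ^ m) x := fun m x =>
    semiconj_pow V'.subtype X' X (fun u => rfl) m x
  have hY'p : ∀ (m : ℕ) (x : V'), (((Y' ^ m) x : V') : V) = (Y ^ m) x := fun m x =>
    semiconj_pow V'.subtype Y' Y (fun u => rfl) m x
  have hXY' : X' * Y' = Y' * X' := by
    refine LinearMap.ext fun x => Subtype.ext ?_
    exact LinearMap.congr_fun hXY (x : V)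
  have hX'n : IsNilpotent X' := by
    obtain ⟨N, hN⟩ := hXn
    refine ⟨N, LinearMap.ext fun x => Subtype.ext ?_⟩
    rw [hX'p, hN]; rfl
  have hY'n : IsNilpotent Y' := by
    obtain ⟨N, hN⟩ := hYn
    refine ⟨N, LinearMap.ext fun x => Subtype.ext ?_⟩
    rw [hY'p, hN]; rfl
  let R : V →ₗ[L] V' := X.rangeRestrict
  have hRc : ∀ u, ((R u : V') : V) = X u := fun u => rfl
  have hRX : ∀ u, R (X u) = X' (R u) := fun u => Subtype.ext rfl
  have hRY : ∀ u, R (Y u) = Y' (R u) := fun u => Subtype.ext (LinearMap.congr_fun hXY u)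
  have hRs : Function.Surjective R := LinearMap.surjective_rangeRestrict X
  have hspan' : Submodule.span L {w | ∃ p q : ℕ, w = (X' ^ p) ((Y' ^ q) (R v))} = ⊤ := by
    rw [eq_top_iff]
    rintro y -
    obtain ⟨u, rfl⟩ := hRs y
    have h1 : (⊤ : Submodule L V) ≤ Submodule.comap R
        (Submodule.span L {w | ∃ p q : ℕ, w = (X' ^ p) ((Y' ^ q) (R v))}) := by
      rw [← hspan, Submodule.span_le]
      rintro _ ⟨p, q, rfl⟩
      refine Submodule.subset_span ⟨p, q, ?_⟩
      rw [semiconj_pow R X X' hRX, semiconj_pow R Y Y' hRY]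
    exact h1 Submodule.mem_top
  obtain ⟨T', b', hcard', hbX, hbY, hbv⟩ := ih (Module.finrank L V') (hn ▸ hlt) V' X' Y' (R v) rfl
    hXY' hX'n hY'n hspan'
  set k' := IntermediateField.adjoin ℂ (T' : Set L) with hk'
  -- the quotient
  set h := Module.finrank L (V ⧸ V') with hh
  have hsum : h + Module.finrank L V' = Module.finrank L V :=
    Submodule.finrank_quotient_add_finrank V'
  have hhpos : 0 < h := by omega
  have hYh : (Y ^ h) v ∈ V' := by
    have hle : V' ≤ Submodule.comap Y V' := fun x hx => hYV x hx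
    let Yq : (V ⧸ V') →ₗ[L] (V ⧸ V') := V'.mapQ V' Y hle
    have hq : ∀ (m : ℕ) (u : V), V'.mkQ ((Y ^ m) u) = (Yq ^ m) (V'.mkQ u) := fun m u =>
      semiconj_pow V'.mkQ Y Yq (fun u => rfl) m u
    obtain ⟨N, hN⟩ := hYn
    have h1 : (Yq ^ N) (V'.mkQ v) = 0 := by
      rw [← hq, hN]; simp
    have h2 : V'.mkQ v ∈ LinearMap.ker (Yq ^ h) :=
      Module.End.ker_pow_le_ker_pow_finrank Yq N h1
    rw [LinearMap.mem_ker, ← hq] at h2
    simpa using h2
  have hYge : ∀ i, h ≤ i → (Y ^ i) v ∈ V' := by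
    intro i hi
    obtain ⟨j, rfl⟩ := Nat.exists_eq_add_of_le hi
    induction j with
    | zero => exact hYh
    | succ j ihj =>
      rw [← add_assoc, pow_succ', Module.End.mul_apply]
      exact hYV _ (ihj (by omega))
  let f : Fin (Module.finrank L V') ⊕ Fin h → V :=
    Sum.elim (fun j => (b' j : V)) (fun i => (Y ^ (i : ℕ)) v)
  have hV'span : V' ≤ Submodule.span L (Set.range f) := by
    intro x hx
    have h1 : (⊤ : Submodule L V') ≤ Submodule.comap V'.subtype (Submodule.span L (Set.range f)) := by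
      rw [← b'.span_eq, Submodule.span_le]
      rintro _ ⟨j, rfl⟩
      exact Submodule.subset_span ⟨Sum.inl j, rfl⟩
    exact h1 (Submodule.mem_top : (⟨x, hx⟩ : V') ∈ ⊤)
  have hfspan : ⊤ ≤ Submodule.span L (Set.range f) := by
    rw [← hspan, Submodule.span_le]
    rintro _ ⟨p, q, rfl⟩
    rcases Nat.eq_zero_or_pos p with rfl | hp
    · rw [pow_zero]
      show (Y ^ q) v ∈ _
      by_cases hq : q < h
      · exact Submodule.subset_span ⟨Sum.inr ⟨q, hq⟩, rfl⟩
      · exact hV'span (hYge q (not_lt.mp hq))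
    · obtain ⟨p, rfl⟩ := Nat.exists_eq_succ_of_ne_zero hp.ne'
      refine hV'span ?_
      rw [Nat.succ_eq_add_one, pow_succ', Module.End.mul_apply]
      exact ⟨_, rfl⟩
  have hfcard : Fintype.card (Fin (Module.finrank L V') ⊕ Fin h) = Module.finrank L V := by
    rw [Fintype.card_sum, Fintype.card_fin, Fintype.card_fin]; omega
  let bs : Module.Basis (Fin (Module.finrank L V') ⊕ Fin h) L V :=
    basisOfTopLeSpanOfCardEqFinrank f hfspan hfcard
  have hbs : ∀ i, bs i = f i := fun i => by simp [bs]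
  have hbsl : ∀ j, bs (Sum.inl j) = (b' j : V) := fun j => hbs _
  have hbsr : ∀ i : Fin h, bs (Sum.inr i) = (Y ^ (i : ℕ)) v := fun i => hbs _
  -- LA
  let w : V' := ⟨(Y ^ h) v, hYh⟩
  let M : Matrix (Fin (Module.finrank L V')) (Fin (Module.finrank L V')) L :=
    LinearMap.toMatrix b' b' X'
  have hM : ∀ i j, M i j ∈ k' := by
    intro i j
    rw [show M i j = b'.repr (X' (b' j)) i from LinearMap.toMatrix_apply _ _ _ _ _]
    exact hbX j i
  have hMv : ∀ u : V', M.mulVec (b'.repr u) = b'.repr (X' u) := fun u =>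
    LinearMap.toMatrix_mulVec_repr b' b' X' u
  have hXw : X' w = (Y' ^ h) (R v) := by
    apply Subtype.ext
    rw [hY'p]
    exact comm_pow X Y hXY h v
  have hMw : ∀ i, (M.mulVec (b'.repr w)) i ∈ k' := by
    intro i
    rw [hMv, hXw]
    exact Rt.pow Y' hbY hbv h i
  obtain ⟨c, hc, hwc⟩ := hLA L T' _ M (b'.repr w) hM hMw
  have hker : Module.finrank L (LinearMap.ker M.mulVecLin)
      ≤ Module.finrank L (V' ⧸ LinearMap.range X') := by
    have h1 : LinearMap.ker M.mulVecLin
        ≤ Submodule.map (b'.equivFun : V' →ₗ[L] _) (LinearMap.ker X') := by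
      intro x hx
      refine ⟨b'.equivFun.symm x, ?_, b'.equivFun.apply_symm_apply x⟩
      have h2 : (b'.repr (b'.equivFun.symm x) : Fin (Module.finrank L V') → L) = x := by
        have := b'.equivFun.apply_symm_apply x
        rwa [Module.Basis.equivFun_apply] at this
      have h3 := hMv (b'.equivFun.symm x)
      rw [h2] at h3
      have h4 : M.mulVec x = 0 := by
        rw [LinearMap.mem_ker, Matrix.mulVecLin_apply] at hx; exact hx
      rw [h4] at h3
      show X' _ = 0
      apply b'.repr.injective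
      rw [map_zero]
      exact Finsupp.ext fun i => (congrFun h3 i).symm
    refine (Submodule.finrank_mono h1).trans ?_
    rw [LinearEquiv.finrank_map_eq]
    have h5 := LinearMap.finrank_range_add_finrank_ker X'
    have h6 := Submodule.finrank_quotient_add_finrank (LinearMap.range X')
    omega
  have hT : ((T' ∪ c : Finset L) : Set L) = (T' : Set L) ∪ (c : Set L) := Finset.coe_union _ _
  set k := IntermediateField.adjoin ℂ ((T' ∪ c : Finset L) : Set L) with hk
  have hkk : k' ≤ k := by
    rw [hk, hT]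
    exact IntermediateField.adjoin.mono _ _ _ Set.subset_union_left
  have hw : Rt k b' w := by
    intro i
    have := hwc i
    rwa [← hT] at this
  have hsub : ∀ x : V', Rt k b' x → Rt k bs (x : V) := by
    intro x hx
    refine Rt.map V'.subtype (fun i => ?_) hx
    rw [Submodule.subtype_apply, ← hbsl]
    exact Rt.basis k bs _
  have hX1 : ∀ i, Rt k bs (X (bs i)) := by
    rintro (j | i)
    · rw [hbsl, ← hX'c]
      exact hsub _ ((hbX j).mono hkk)
    · rw [hbsr, comm_pow X Y hXY, ← hRc, ← hY'p]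
      exact hsub _ ((Rt.pow Y' hbY hbv i).mono hkk)
  have hY1 : ∀ i, Rt k bs (Y (bs i)) := by
    rintro (j | i)
    · rw [hbsl, ← hY'c]
      exact hsub _ ((hbY j).mono hkk)
    · rw [hbsr, ← Module.End.mul_apply, ← pow_succ']
      by_cases hi : (i : ℕ) + 1 < h
      · rw [← show bs (Sum.inr ⟨(i : ℕ) + 1, hi⟩) = (Y ^ ((i : ℕ) + 1)) v from hbsr _]
        exact Rt.basis k bs _
      · have : (i : ℕ) + 1 = h := by have := i.2; omega
        rw [this]
        exact hsub w hw
  have hv1 : Rt k bs v := by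
    have : v = bs (Sum.inr ⟨0, hhpos⟩) := by rw [hbsr]; simp
    rw [this]
    exact Rt.basis k bs _
  let e : (Fin (Module.finrank L V') ⊕ Fin h) ≃ Fin (Module.finrank L V) :=
    Fintype.equivFinOfCardEq hfcard
  have hre : ∀ x, Rt k bs x → Rt k (bs.reindex e) x := by
    intro x hx j
    rw [Module.Basis.repr_reindex_apply]
    exact hx _
  refine ⟨T' ∪ c, bs.reindex e, ?_, ?_, ?_, hre _ hv1⟩
  · have := Finset.card_union_le T' c
    omega
  · intro i
    rw [Module.Basis.reindex_apply]
    exact hre _ (hX1 _)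
  · intro i
    rw [Module.Basis.reindex_apply]
    exact hre _ (hY1 _)

end FD_aux

theorem FD (hLA : S_LA) : S_FD := by
  intro L _ _ V _ _ _ X Y v hXY hX hY hspan
  obtain ⟨T, b, hc, h1, h2, h3⟩ := FD_aux.main hLA _ V X Y v rfl hXY hX hY hspan
  exact ⟨T, b, hc, fun i j => ⟨h1 i j, h2 i j, h3 j⟩⟩

end HR
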