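import Pool.Agent.H59.HR.Stm

set_option linter.all false

open Polynomial

namespace HR

namespace LA_aux

variable {L : Type} [Field L] [Algebra ℂ L]

theorem main (k : IntermediateField ℂ L) (m : ℕ) (M : Matrix (Fin m) (Fin m) L)
    (w : Fin m → L) (hM : ∀ i j, M i j ∈ k) (hw : ∀ i, (M.mulVec w) i ∈ k) :
    ∃ c : Finset L, c.card ≤ Module.finrank L (LinearMap.ker M.mulVecLin) ∧
      ∀ i, ∃ z : L, z ∈ k ∧ ∃ g : L → L, (∀ x, g x ∈ k) ∧ w i = z + ∑ x ∈ c, x * g x := by
  classical
  -- retraction
  obtain ⟨π, hπ⟩ : ∃ π : L →ₗ[k] k, ∀ a : k, π (a : L) = a := by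
    obtain ⟨π, hπ⟩ := LinearMap.exists_leftInverse_of_injective (Algebra.linearMap k L)
      (LinearMap.ker_eq_bot.mpr (algebraMap k L).injective)
    exact ⟨π, fun a => by simpa using LinearMap.congr_fun hπ a⟩
  let M' : Fin m → Fin m → k := fun i j => ⟨M i j, hM i j⟩
  let z : Fin m → L := fun i => (π (w i) : L)
  have hz : ∀ i, z i ∈ k := fun i => (π (w i)).2
  have hsmul : ∀ (a : k) (x : L), π ((a : L) * x) = a * π x := by
    intro a x
    have : (a : L) * x = a • x := by rw [Algebra.smul_def]; rfl
    rw [this, map_smul, smul_eq_mul]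
  have hMz : ∀ i, (M.mulVec z) i = (M.mulVec w) i := by
    intro i
    have h1 : (π ((M.mulVec w) i) : L) = (M.mulVec w) i := by
      have := hπ ⟨(M.mulVec w) i, hw i⟩
      simpa using congrArg (Subtype.val) this
    rw [← h1]
    simp only [Matrix.mulVec, dotProduct]
    rw [map_sum]
    have h2 : ∀ j, π (M i j * w j) = (M' i j) * π (w j) := fun j => hsmul (M' i j) (w j)
    simp only [h2]
    rw [show ((∑ j, M' i j * π (w j) : k) : L) = ∑ j, ((M' i j * π (w j) : k) : L) from
      map_sum (algebraMap k L) _ _]
    rfl
  let v : Fin m → L := fun i => w i - z i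
  have hv : M.mulVec v = 0 := by
    have : v = w - z := rfl
    rw [this, Matrix.mulVec_sub]
    funext i
    simp [hMz i]
  -- span of the entries
  let W : Submodule k L := Submodule.span k (Set.range v)
  haveI : FiniteDimensional k W := FiniteDimensional.span_of_finite k (Set.finite_range v)
  let b := Module.finBasis k W
  let vW : Fin m → W := fun i => ⟨v i, Submodule.subset_span ⟨i, rfl⟩⟩
  let e : Fin (Module.finrank k W) → Fin m → L := fun s i => ((b.repr (vW i) s : k) : L)
  have hve : ∀ i, v i = ∑ s, (b s : L) * e s i := by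
    intro i
    have h := b.sum_repr (vW i)
    have h' := congrArg (Subtype.val) h
    rw [AddSubmonoidClass.coe_finset_sum] at h'
    rw [show v i = (vW i : L) from rfl, ← h']
    refine Finset.sum_congr rfl fun s _ => ?_
    rw [Submodule.coe_smul, Algebra.smul_def, mul_comm]
    rfl
  -- dual separation
  have hsep : ∀ μ : Fin (Module.finrank k W) → L,
      (∀ (F : L →ₗ[k] k) , ∀ s, F (μ s) = 0) → ∀ s, μ s = 0 := by
    intro μ h s
    exact (Module.forall_dual_apply_eq_zero_iff k (μ s)).mp fun F => h F s
  -- linear functional on W vanishing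
  have hvan : ∀ d : Fin (Module.finrank k W) → k,
      (∀ i, ∑ s, d s * b.repr (vW i) s = 0) → ∀ s, d s = 0 := by
    intro d hd
    let Φ : W →ₗ[k] k := b.constr k d
    have hΦ : ∀ x, Φ x = ∑ s, b.repr x s * d s := by
      intro x
      rw [show Φ x = (b.constr k d) x from rfl, Module.Basis.constr_apply_fintype]
      simp [Module.Basis.equivFun_apply]
    have h0 : Φ = 0 := by
      have hspan : Submodule.span k (Set.range vW) = ⊤ := by
        rw [eq_top_iff]
        rintro ⟨x, hx⟩ -
        have : Submodule.map W.subtype (Submodule.span k (Set.range vW)) = W := by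
          rw [Submodule.map_span, ← Set.range_comp]
          rfl
        have hx' : x ∈ Submodule.map W.subtype (Submodule.span k (Set.range vW)) := by
          rw [this]; exact hx
        obtain ⟨y, hy, hyx⟩ := hx'
        have : y = ⟨x, hx⟩ := Subtype.ext hyx
        rwa [this] at hy
      refine LinearMap.ext_on_range hspan fun i => ?_
      rw [hΦ, LinearMap.zero_apply, ← hd i]
      exact Finset.sum_congr rfl fun s _ => mul_comm _ _
    intro s
    have : Φ (b s) = d s := by simp [Φ]
    rw [← this, h0, LinearMap.zero_apply]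
  -- M e_s = 0
  have hMe : ∀ s, M.mulVec (e s) = 0 := by
    intro s
    funext i
    -- for fixed i: ∑ s b_s (M e_s)_i = 0 with (M e_s)_i ∈ k
    let q : Fin (Module.finrank k W) → k := fun s => ∑ j, M' i j * b.repr (vW j) s
    have hq : ∀ s, ((q s : k) : L) = (M.mulVec (e s)) i := by
      intro s
      simp only [q, Matrix.mulVec, dotProduct]
      rw [show ((∑ j, M' i j * b.repr (vW j) s : k) : L)
        = ∑ j, ((M' i j * b.repr (vW j) s : k) : L) from map_sum (algebraMap k L) _ _]
      rfl
    have h1 : ∑ s, q s • b s = 0 := by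
      apply Subtype.ext
      rw [AddSubmonoidClass.coe_finset_sum]
      have : ∀ s, ((q s • b s : W) : L) = (b s : L) * (M.mulVec (e s)) i := by
        intro s
        rw [Submodule.coe_smul, Algebra.smul_def, mul_comm, ← hq]; rfl
      simp only [this]
      have h2 : (M.mulVec v) i = ∑ s, (b s : L) * (M.mulVec (e s)) i := by
        simp only [Matrix.mulVec, dotProduct, Finset.mul_sum]
        rw [Finset.sum_comm]
        refine Finset.sum_congr rfl fun j _ => ?_
        rw [hve j, Finset.mul_sum]
        refine Finset.sum_congr rfl fun s _ => ?_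
        ring
      rw [← h2, hv]; rfl
    have h3 : q s = 0 := by
      have := Fintype.linearIndependent_iff.mp b.linearIndependent q h1 s
      exact this
    rw [← hq, h3]; rfl
  -- the e_s are L-linearly independent in the kernel
  let f : Fin (Module.finrank k W) → LinearMap.ker M.mulVecLin := fun s =>
    ⟨e s, by rw [LinearMap.mem_ker, Matrix.mulVecLin_apply]; exact hMe s⟩
  have hf : LinearIndependent L f := by
    rw [Fintype.linearIndependent_iff]
    intro μ hμ
    have hμ' : ∀ i, ∑ s, μ s * e s i = 0 := by
      intro i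
      have := congrArg (fun x : LinearMap.ker M.mulVecLin => (x : Fin m → L) i) hμ
      simp only [AddSubmonoidClass.coe_finset_sum, Finset.sum_apply, Submodule.coe_smul,
        Pi.smul_apply, smul_eq_mul, Submodule.coe_zero, Pi.zero_apply] at this
      exact this
    apply hsep
    intro F
    apply hvan
    intro i
    have h1 := congrArg F (hμ' i)
    rw [map_sum, map_zero] at h1
    rw [← h1]
    refine Finset.sum_congr rfl fun s _ => ?_
    have : μ s * e s i = (b.repr (vW i) s) • μ s := by
      rw [Algebra.smul_def, mul_comm]; rfl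
    rw [this, map_smul, smul_eq_mul, mul_comm]
  refine ⟨Finset.univ.image (fun s => (b s : L)), ?_, ?_⟩
  · refine Finset.card_image_le.trans ?_
    rw [Finset.card_univ]
    exact hf.fintype_card_le_finrank
  · intro i
    have hinj : Function.Injective (fun s => (b s : L)) := by
      intro s t h
      exact b.injective (Subtype.ext h)
    refine ⟨z i, hz i, fun x => if h : ∃ s, (b s : L) = x then e h.choose i else 0, ?_, ?_⟩
    · intro x
      dsimp only
      split_ifs with h
      · exact (b.repr (vW i) h.choose).2
      · exact k.zero_mem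
    · rw [Finset.sum_image (fun s _ t _ h => hinj h)]
      have : w i = z i + v i := by simp [v]
      rw [this, hve i]
      congr 1
      refine Finset.sum_congr rfl fun s _ => ?_
      have h : ∃ s', (b s' : L) = (b s : L) := ⟨s, rfl⟩
      have h2 : h.choose = s := hinj h.choose_spec
      show (b s : L) * e s i = (b s : L) * (if h : ∃ s', (b s' : L) = (b s : L) then e h.choose i else 0)
      rw [dif_pos h, h2]

end LA_aux

theorem LA : S_LA := by
  intro L _ _ T m M w hM hw
  obtain ⟨c, hc, h⟩ := LA_aux.main (IntermediateField.adjoin ℂ (T : Set L)) m M w hM hw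
  refine ⟨c, hc, fun i => ?_⟩
  obtain ⟨z, hz, g, hg, e⟩ := h i
  have h1 : IntermediateField.adjoin ℂ (T : Set L)
      ≤ IntermediateField.adjoin ℂ ((T : Set L) ∪ (c : Set L)) :=
    IntermediateField.adjoin.mono _ _ _ Set.subset_union_left
  rw [e]
  refine add_mem (h1 hz) (sum_mem fun x hx => mul_mem ?_ (h1 (hg x)))
  exact IntermediateField.subset_adjoin _ _ (Or.inr hx)

end HR
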